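import Pool.Agent.TP975.RP.Cd7

/-!
# The Bateman-Horn asymptotics for almost all systems with primes at prescribed arguments

The second moment (`TP975.RP.core3`) and the lower bound for the number of the systems with primes at the
prescribed arguments (`TP975.RP.Prs_ge`) give the asymptotic formula for almost all of these systems.
-/

set_option autoImplicit false

namespace Pool.Agent.U708.RPC

open Finset
open Pool.Agent.H373R2.T7
open Pool.Agent.TP975.RP

variable {m d k s : ℕ}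

theorem cond (m d k s : ℕ) (hd : 1 ≤ d) (hk : 1 ≤ k) (tau : Fin s → Fin m) (t : Fin s → ℤ) (io : Fin k → Fin m)
    (h : Fin k → ℕ) (hsys : Sys d tau t io h)
    (ε : ℝ) (hε : 0 < ε) (A : ℕ) (δ : ℝ) (hδ : 0 < δ) : ∃ w0 : ℕ, ∀ w : ℕ, w0 ≤ w → ∃ H0 : ℕ, ∀ H : ℕ, H0 ≤ H →
    ∀ x : ℕ, Real.log H ^ ((k : ℝ) + ε) ≤ x → (x : ℝ) ≤ Real.log H ^ A →
    (((Prs (d := d) H tau t).filter (fun a => (∀ p ≤ w, p.Prime → om io h a p < p) ∧
      δ * (Cw w io h a * x / Real.log H ^ k) < |(piF io h a x : ℝ) - Cw w io h a * x / Real.log H ^ k|)).card : ℝ) ≤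
      δ * (Prs (d := d) H tau t).card := by
  classical
  obtain ⟨cP, hcP, hPrs⟩ := Prs_ge m d s hd
  set δ1 : ℝ := min δ 1 with hδ1
  have hδ10 : 0 < δ1 := lt_min hδ one_pos
  have hδ11 : δ1 ≤ 1 := min_le_right _ _
  have hδ1δ : δ1 ≤ δ := min_le_left _ _
  set η : ℝ := δ1 / 2 ^ (k + 2) with hη
  have hη0 : 0 < η := by positivity
  have hηe : 2 ^ (k + 1) * η = δ1 / 2 := by
    rw [hη, pow_succ 2 (k + 1)]
    field_simp
  have hη1 : 2 ^ (k + 1) * η ≤ 1 := by rw [hηe]; linarith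
  have h2k : (4 : ℝ) ≤ 2 ^ (k + 1) := by
    calc (4 : ℝ) = 2 ^ 2 := by norm_num
      _ ≤ 2 ^ (k + 1) := pow_le_pow_right₀ (by norm_num) (by omega)
  have hη4 : η ≤ 1 / 4 := by nlinarith
  set T : ℕ := univ.sup (fun i => (t i).natAbs) with hTd
  have htT : ∀ i, |t i| ≤ T := by
    intro i
    have h1 : (t i).natAbs ≤ T := le_sup (f := fun i => (t i).natAbs) (mem_univ i)
    have h2 : ((t i).natAbs : ℤ) = |t i| := Int.natCast_natAbs _
    omega
  obtain ⟨C, hC1, H1, h1⟩ := core3 m d s k (A + 1) T hd ε hε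
  obtain ⟨c, hc0, hlow⟩ := Cw_lower k d
  set D := k * d with hD
  obtain ⟨w1, hw1⟩ := V_lt (s + 2 * k + 4 * D) (2 ^ s * (16 * C) / (δ1 ^ 2 * c ^ 2) * (4 / (δ1 * cP)))
  set hm : ℕ := univ.sup h with hhm
  refine ⟨max (max w1 ⌈C⌉₊) hm, fun w hw => ?_⟩
  have hw1' := hw1 w (le_trans (le_trans (le_max_left _ _) (le_max_left _ _)) hw)
  have hwC : C ≤ w := by
    have h2 : ⌈C⌉₊ ≤ w := le_trans (le_trans (le_max_right _ _) (le_max_left _ _)) hw
    exact (Nat.le_ceil C).trans (by exact_mod_cast h2)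
  have hwh : ∀ j, h j ≤ w := fun j => le_trans (le_sup (f := h) (mem_univ j)) (le_trans (le_max_right _ _) hw)
  have hwr : (1 : ℝ) ≤ w := hC1.trans hwC
  have hw0 : (0 : ℝ) < w := by linarith
  obtain ⟨H2, h2⟩ := badfrac2 k s A η (δ1 * cP / 4) hη0 hη4 (by positivity)
  obtain ⟨H3, h3⟩ := Filter.eventually_atTop.1 (log_tend.eventually_ge_atTop ((16 : ℝ) ^ w))
  obtain ⟨H4, h4⟩ := Filter.eventually_atTop.1 (log_tend.eventually_ge_atTop ((hm : ℝ) + T + 3))
  have hbig : ∀ᶠ H : ℕ in Filter.atTop, ((d : ℝ) + 1) * Real.log H ^ ((A + 1) * d) ≤ (H : ℝ) ^ η := by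
    have g1 := (isLittleO_log_rpow_rpow_atTop (((A + 1) * d : ℕ) : ℝ) hη0).bound (show (0 : ℝ) < 1 / (d + 1) by positivity)
    filter_upwards [(tendsto_natCast_atTop_atTop (R := ℝ)).eventually g1, log_tend.eventually_ge_atTop 1] with H g2 g3
    rw [Real.rpow_natCast, Real.norm_of_nonneg (by positivity), Real.norm_of_nonneg (by positivity), one_div,
      inv_mul_eq_div, le_div_iff₀ (by positivity)] at g2
    linarith
  obtain ⟨H5, h5⟩ := Filter.eventually_atTop.1 hbig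
  obtain ⟨H6, h6⟩ := hPrs T
  refine ⟨max (max (max H1 H2) (max H3 H4)) (max (max H5 H6) 3), fun H hH x hx hxA => ?_⟩
  have c0 := le_trans (le_max_left _ _) hH
  have b1 := le_trans (le_max_left _ _) (le_trans (le_max_left _ _) c0)
  have b2 := le_trans (le_max_right _ _) (le_trans (le_max_left _ _) c0)
  have b3 := le_trans (le_max_left _ _) (le_trans (le_max_right _ _) c0)
  have b4 := le_trans (le_max_right _ _) (le_trans (le_max_right _ _) c0)
  have b5 := le_trans (le_max_left _ _) (le_trans (le_max_left _ _) (le_trans (le_max_right _ _) hH))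
  have b6' := le_trans (le_max_right _ _) (le_trans (le_max_left _ _) (le_trans (le_max_right _ _) hH))
  have b6 : 3 ≤ H := le_trans (le_max_right _ _) (le_trans (le_max_right _ _) hH)
  have hL16 := h3 H b3
  have hLhm := h4 H b4
  have hbig' := h5 H b5
  have hH3 : (3 : ℝ) ≤ H := by exact_mod_cast b6
  have hH0 : (0 : ℝ) < H := by linarith
  have hfib1 : ∀ l, (univ.filter (fun i => tau i = l)).card ≤ 2 * d + 1 := fun l => by
    have := hsys.fib l
    omega
  have hP := h6 H b6' tau t htT hsys.inj1 hfib1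
  set L := Real.log H with hL
  have hhm0 : (0 : ℝ) ≤ hm := Nat.cast_nonneg _
  have hT0 : (0 : ℝ) ≤ T := Nat.cast_nonneg _
  have hL3 : 3 ≤ L := by linarith
  have hL1 : 1 ≤ L := by linarith
  have hL0 : 0 < L := by linarith
  have hLx : L ≤ x := by
    refine le_trans ?_ hx
    calc L = L ^ (1 : ℝ) := (Real.rpow_one L).symm
      _ ≤ L ^ ((k : ℝ) + ε) := by
        apply Real.rpow_le_rpow_of_exponent_le hL1
        have : (1 : ℝ) ≤ k := by exact_mod_cast hk
        linarith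
  have hx0 : (0 : ℝ) < x := by linarith
  have hx1 : 1 ≤ x := by
    have : (1 : ℝ) ≤ x := by linarith
    exact_mod_cast this
  have hhx : ∀ j, h j + T ≤ x := by
    intro j
    have g1 : h j ≤ hm := le_sup (f := h) (mem_univ j)
    have g2 : (hm : ℝ) + T ≤ x := by linarith
    have g3 : hm + T ≤ x := by exact_mod_cast g2
    omega
  have hxA1 : (x : ℝ) ≤ L ^ (A + 1) := hxA.trans (pow_le_pow_right₀ hL1 (by omega))
  have hcore := h1 H b1 w hwC hL16 x hLx hx hxA1 tau t io h hsys hhx htT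
  have hF : Fx (Kd m s k) w x io h = 0 := by
    unfold Fx
    apply sum_eq_zero
    intro q hq
    unfold Qp at hq
    rw [mem_filter] at hq
    rw [Yf_small, sub_self]
    · have := hsys.inj2 q.1 q.2 hq.2.1 hq.2.2
      intro h0
      apply this
      omega
    · have g1 := hwh q.1
      have g2 := hwh q.2
      rw [abs_le]; omega
  rw [hF, add_zero] at hcore
  set y := ⌊(H : ℝ) ^ (1 - η)⌋₊ with hy
  set Y := ⌊(H : ℝ) ^ (1 + η)⌋₊ with hY
  set V := (Vz w)⁻¹ with hV
  have hV1 : 1 ≤ V := one_le_Vinv w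
  set Bc : ℝ := ((Bx m d H).card : ℝ) with hBc
  have hBc0 : 0 ≤ Bc := Nat.cast_nonneg _
  set κ : ℝ := c * (Vz w) ^ (2 * D) with hκ
  have hVzp : 0 < Vz w := Pool.Agent.TP975.RP.Vz_pos w
  have hκ0 : 0 < κ := mul_pos hc0 (pow_pos hVzp _)
  have hLs : 0 < L ^ s := by positivity
  -- facts about the values
  have hη1' : η ≤ 1 := by linarith
  have g5 : (1 - η) * L ≤ Real.log (y + 1) := by
    have : (H : ℝ) ^ (1 - η) ≤ y + 1 := (Nat.lt_floor_add_one _).le
    calc (1 - η) * L = Real.log ((H : ℝ) ^ (1 - η)) := (Real.log_rpow hH0 _).symm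
      _ ≤ _ := Real.log_le_log (by positivity) this
  have hYle : (Y : ℝ) ≤ (H : ℝ) ^ (1 + η) := Nat.floor_le (by positivity)
  have hY1r : (1 : ℝ) ≤ (H : ℝ) ^ (1 + η) := Real.one_le_rpow (by linarith) (by linarith)
  have hY1 : 1 ≤ Y := Nat.le_floor (by exact_mod_cast hY1r)
  have g6 : Real.log Y ≤ (1 + η) * L := by
    have h3 := Real.log_le_log (by exact_mod_cast hY1) hYle
    rwa [Real.log_rpow hH0] at h3
  -- the three exceptional sets
  set S0 := (Bx m d H).filter (fun a => BadT y Y tau t a) with hS0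
  set S1 := (Bx m d H).filter (fun a => BadA io h x y Y a) with hS1
  set S2 := (Bx m d H).filter (fun a => (L / 2) ^ s ≤ Wt tau t a ∧
    δ1 / 4 * κ * x < |∑ n ∈ Icc 1 x, PL io h a n - Cw w io h a * x|) with hS2
  have hsub : (Prs (d := d) H tau t).filter (fun a => (∀ p ≤ w, p.Prime → om io h a p < p) ∧
      δ * (Cw w io h a * x / L ^ k) < |(piF io h a x : ℝ) - Cw w io h a * x / L ^ k|) ⊆ (S0 ∪ S1) ∪ S2 := by
    intro a ha
    rw [mem_filter] at ha
    obtain ⟨haP, hom, hgt⟩ := ha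
    unfold Prs at haP
    rw [mem_filter] at haP
    obtain ⟨haB, hap⟩ := haP
    rw [mem_union, mem_union]
    by_contra hcon
    push Not at hcon
    obtain ⟨⟨hn0, hn1⟩, hn2⟩ := hcon
    have g0 : ¬ BadT y Y tau t a := fun hc => hn0 (mem_filter.2 ⟨haB, hc⟩)
    have g1 : ¬ BadA io h x y Y a := fun hc => hn1 (mem_filter.2 ⟨haB, hc⟩)
    have hWlow : (L / 2) ^ s ≤ Wt tau t a := by
      unfold Wt
      calc (L / 2) ^ s = ∏ i : Fin s, (L / 2) := by rw [prod_const, card_univ, Fintype.card_fin]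
        _ ≤ _ := by
          apply prod_le_prod (fun _ _ => by positivity)
          intro i _
          rw [ArithmeticFunction.vonMangoldt_apply_prime (hap i)]
          have h9 : ev (a (tau i)) (t i) ∉ badS y Y := fun hc => g0 ⟨i, hc⟩
          have h10 := (not_badS y Y _ h9 (val_bd (A + 1) H Y η (by omega) hη0 hL1 hbig' hY haB (tau i) (t i) (by
            have e1 : |((t i : ℤ) : ℝ)| ≤ T := by
              have := htT i
              exact_mod_cast this
            have e2 : (T : ℝ) ≤ L := by linarith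
            exact e1.trans (e2.trans (le_self_pow₀ hL1 (by omega)))))).1
          have h11 : ((ev (a (tau i)) (t i)).natAbs : ℤ) = |ev (a (tau i)) (t i)| := Int.natCast_natAbs _
          have h12 : y + 1 ≤ (ev (a (tau i)) (t i)).natAbs := by omega
          have h13 : (y : ℝ) + 1 ≤ (ev (a (tau i)) (t i)).natAbs := by exact_mod_cast h12
          have h14 : Real.log ((y : ℝ) + 1) ≤ Real.log ((ev (a (tau i)) (t i)).natAbs : ℕ) :=
            Real.log_le_log (by positivity) h13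
          have h15 : L / 2 ≤ (1 - η) * L := by nlinarith
          linarith
    have g2 : |∑ n ∈ Icc 1 x, PL io h a n - Cw w io h a * x| ≤ δ1 / 4 * κ * x := by
      by_contra hc
      exact hn2 (mem_filter.2 ⟨haB, hWlow, not_le.1 hc⟩)
    have g3 : κ ≤ Cw w io h a := hlow m w io h a hom
    have g4 : |∑ n ∈ Icc 1 x, PL io h a n - Cw w io h a * x| ≤ δ1 / 4 * (Cw w io h a * x) := by
      refine g2.trans ?_
      have : δ1 / 4 * κ * x ≤ δ1 / 4 * Cw w io h a * x := by gcongr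
      linarith
    have g7 : ∀ n ∈ Icc 1 x, ∀ j, |ev (a (io j)) ((n : ℤ) + h j)| ≤ Y := by
      intro n hn j
      rw [mem_Icc] at hn
      apply val_bd (A + 1) H Y η (by omega) hη0 hL1 hbig' hY haB
      have e1 : (n : ℝ) ≤ L ^ A := le_trans (by exact_mod_cast hn.2) hxA
      have e2 : (h j : ℝ) ≤ L ^ A := by
        have : h j ≤ x := by have := hhx j; omega
        exact le_trans (by exact_mod_cast this) hxA
      have e3 : (0 : ℝ) ≤ h j := Nat.cast_nonneg _
      push_cast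
      rw [abs_of_nonneg (by positivity), pow_succ]
      nlinarith
    obtain ⟨t1, t2⟩ := transfer io h a x y Y L η hL0.le hη0.le hη1' g5 hY1 g6 g7 g1
    have g8 := transfer2 k L η δ1 (∑ n ∈ Icc 1 x, PL io h a n) (Cw w io h a * x) (piF io h a x) hL0 hη0.le hη1
      hηe.le (Nat.cast_nonneg _) t1 t2 (mul_nonneg (Cw_bd w io h a).1 hx0.le) g4
    have g9 : δ1 * (Cw w io h a * x / L ^ k) ≤ δ * (Cw w io h a * x / L ^ k) := by
      apply mul_le_mul_of_nonneg_right hδ1δ
      exact div_nonneg (mul_nonneg (Cw_bd w io h a).1 hx0.le) (by positivity)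
    linarith
  obtain ⟨q1, q2⟩ := h2 H b2 x hx1 hxA
  have hS0c : (S0.card : ℝ) ≤ Bc * (δ1 * cP / 4 / L ^ s) := by
    have g1 := BadT_card (d := d) H y Y tau t
    refine le_trans ?_ (mul_le_mul_of_nonneg_left q2 hBc0)
    convert g1
  have hS1c : (S1.card : ℝ) ≤ Bc * (δ1 * cP / 4 / L ^ s) := by
    have g1 := BadA_card (d := d) H io h x y Y
    refine le_trans ?_ (mul_le_mul_of_nonneg_left q1 hBc0)
    convert g1
  have hS2c : (S2.card : ℝ) ≤ Bc * (δ1 * cP / 4 / L ^ s) := by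
    have g1 : (S2.card : ℝ) * ((L / 2) ^ s * (δ1 / 4 * κ * x) ^ 2) ≤
        Bc * ((x : ℝ) ^ 2 * (V ^ (s + 2 * k) * (C * (1 / w)))) := by
      refine le_trans ?_ hcore
      calc (S2.card : ℝ) * ((L / 2) ^ s * (δ1 / 4 * κ * x) ^ 2) = ∑ a ∈ S2, (L / 2) ^ s * (δ1 / 4 * κ * x) ^ 2 := by
            rw [sum_const, nsmul_eq_mul]
        _ ≤ ∑ a ∈ S2, Wt tau t a * (∑ n ∈ Icc 1 x, PL io h a n - Cw w io h a * x) ^ 2 := by
            refine sum_le_sum fun a ha => ?_
            rw [hS2, mem_filter] at ha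
            rw [← sq_abs (∑ n ∈ Icc 1 x, PL io h a n - Cw w io h a * x)]
            exact mul_le_mul ha.2.1 (pow_le_pow_left₀ (by positivity) ha.2.2.le 2) (by positivity)
              (Wt_nonneg tau t a)
        _ ≤ _ := sum_le_sum_of_subset_of_nonneg (filter_subset _ _)
            (fun a _ _ => mul_nonneg (Wt_nonneg tau t a) (sq_nonneg _))
    have hVV : V * Vz w = 1 := by rw [hV]; exact inv_mul_cancel₀ hVzp.ne'
    have hκV : κ * V ^ (2 * D) = c := by
      rw [hκ, mul_assoc, ← mul_pow, mul_comm (Vz w) V, hVV, one_pow, mul_one]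
    have g2 : (S2.card : ℝ) * L ^ s * (c ^ 2 * (δ1 / 4) ^ 2) ≤ Bc * (2 ^ s * V ^ (s + 2 * k + 4 * D) * (C * (1 / w))) := by
      have h6 : 0 < (x : ℝ) ^ 2 := by positivity
      have h7 : (S2.card : ℝ) * (L / 2) ^ s * (δ1 / 4 * κ) ^ 2 ≤ Bc * (V ^ (s + 2 * k) * (C * (1 / w))) := by
        apply le_of_mul_le_mul_right _ h6
        calc (S2.card : ℝ) * (L / 2) ^ s * (δ1 / 4 * κ) ^ 2 * (x : ℝ) ^ 2 =
              (S2.card : ℝ) * ((L / 2) ^ s * (δ1 / 4 * κ * x) ^ 2) := by ring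
          _ ≤ _ := g1
          _ = _ := by ring
      have h8 : 0 ≤ 2 ^ s * (V ^ (2 * D)) ^ 2 := by positivity
      have h9 := mul_le_mul_of_nonneg_right h7 h8
      have e2s : (L / 2) ^ s * 2 ^ s = L ^ s := by
        rw [← mul_pow]; congr 1; ring
      calc (S2.card : ℝ) * L ^ s * (c ^ 2 * (δ1 / 4) ^ 2) =
            (S2.card : ℝ) * (L / 2) ^ s * (δ1 / 4 * κ) ^ 2 * (2 ^ s * (V ^ (2 * D)) ^ 2) := by
            rw [← hκV, ← e2s]; ring
        _ ≤ _ := h9
        _ = Bc * (2 ^ s * V ^ (s + 2 * k + 4 * D) * (C * (1 / w))) := by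
            have : V ^ (s + 2 * k + 4 * D) = V ^ (s + 2 * k) * (V ^ (2 * D)) ^ 2 := by
              rw [← pow_mul, ← pow_add]; congr 1; ring
            rw [this]; ring
    have g3 : 2 ^ s * V ^ (s + 2 * k + 4 * D) * (C * (1 / w)) ≤ (δ1 * cP / 4) * (c ^ 2 * (δ1 / 4) ^ 2) := by
      have h6 : 2 ^ s * (16 * C) / (δ1 ^ 2 * c ^ 2) * (4 / (δ1 * cP)) * V ^ (s + 2 * k + 4 * D) ≤ w := hw1'
      have e1 : 2 ^ s * V ^ (s + 2 * k + 4 * D) * (C * (1 / w)) =
          (2 ^ s * (16 * C) / (δ1 ^ 2 * c ^ 2) * (4 / (δ1 * cP)) * V ^ (s + 2 * k + 4 * D)) *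
          ((δ1 * cP / 4) * (c ^ 2 * (δ1 / 4) ^ 2)) * (1 / w) := by
        field_simp
        ring
      rw [e1]
      have h7 : 0 ≤ ((δ1 * cP / 4) * (c ^ 2 * (δ1 / 4) ^ 2)) * (1 / (w : ℝ)) := by positivity
      calc (2 ^ s * (16 * C) / (δ1 ^ 2 * c ^ 2) * (4 / (δ1 * cP)) * V ^ (s + 2 * k + 4 * D)) *
            ((δ1 * cP / 4) * (c ^ 2 * (δ1 / 4) ^ 2)) * (1 / w)
          = (2 ^ s * (16 * C) / (δ1 ^ 2 * c ^ 2) * (4 / (δ1 * cP)) * V ^ (s + 2 * k + 4 * D)) *
            (((δ1 * cP / 4) * (c ^ 2 * (δ1 / 4) ^ 2)) * (1 / w)) := by ring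
        _ ≤ w * (((δ1 * cP / 4) * (c ^ 2 * (δ1 / 4) ^ 2)) * (1 / w)) := mul_le_mul_of_nonneg_right h6 h7
        _ = _ := by field_simp
    have h10 : 0 < c ^ 2 * (δ1 / 4) ^ 2 := by positivity
    have g4 : (S2.card : ℝ) * L ^ s ≤ Bc * (δ1 * cP / 4) := by
      apply le_of_mul_le_mul_right _ h10
      calc (S2.card : ℝ) * L ^ s * (c ^ 2 * (δ1 / 4) ^ 2) ≤
            Bc * (2 ^ s * V ^ (s + 2 * k + 4 * D) * (C * (1 / w))) := g2
        _ ≤ Bc * ((δ1 * cP / 4) * (c ^ 2 * (δ1 / 4) ^ 2)) := mul_le_mul_of_nonneg_left g3 hBc0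
        _ = _ := by ring
    rw [← mul_div_assoc, le_div_iff₀ hLs]
    exact g4
  have hfin : (((Prs (d := d) H tau t).filter (fun a => (∀ p ≤ w, p.Prime → om io h a p < p) ∧
      δ * (Cw w io h a * x / L ^ k) < |(piF io h a x : ℝ) - Cw w io h a * x / L ^ k|)).card : ℝ) ≤
      S0.card + S1.card + S2.card := by
    have := (card_le_card hsub).trans ((card_union_le _ _).trans (add_le_add_left (card_union_le _ _) _))
    exact_mod_cast this
  calc _ ≤ (S0.card : ℝ) + S1.card + S2.card := hfin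
    _ ≤ Bc * (δ1 * cP / 4 / L ^ s) + Bc * (δ1 * cP / 4 / L ^ s) + Bc * (δ1 * cP / 4 / L ^ s) := by linarith
    _ = 3 / 4 * δ1 * (cP * (Bc / L ^ s)) := by field_simp; ring
    _ ≤ 1 * δ1 * (cP * (Bc / L ^ s)) := by
        apply mul_le_mul_of_nonneg_right _ (by positivity)
        linarith
    _ ≤ δ * (Prs (d := d) H tau t).card := by
        rw [one_mul]
        exact mul_le_mul hδ1δ hP (by positivity) hδ.le

end Pool.Agent.U708.RPC
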