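import Pool.Agent.TP975.LR.Lj2

/-!
# Gaussian moments of short sums of the Liouville function along almost all polynomials
-/

set_option autoImplicit false

namespace Pool.Agent.U708.RPC

open Finset Filter
open Pool.Agent.TP975.RP
open Pool.Agent.TP975.LR

lemma lamI_cases' (v : ℤ) (hv : v ≠ 0) : lamI v = 1 ∨ lamI v = -1 := by
  unfold lamI
  rw [if_neg hv]
  exact neg_one_pow_eq_or ℝ _

open Classical in
/-- all moments of order at most `R` at once -/
theorem gauss (d A R k : ℕ) (hk : 1 ≤ k) (hR : R * k ≤ d) (ε : ℝ) (hε : 0 < ε) : ∃ η : ℝ, 0 < η ∧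
    ∃ H0 : ℕ, ∀ H : ℕ, H0 ≤ H → ∀ J : Finset ℤ, J.card = k → (∀ j ∈ J, |(j : ℝ)| ≤ Real.log H ^ A) →
    ∀ M h : ℕ, 1 ≤ M → Real.log H ^ ε ≤ h → ∀ T : Fin M → Finset ℤ, (∀ i, (T i).card = h) →
    (∀ i, ∀ t ∈ T i, |(t : ℝ)| ≤ Real.log H ^ A) →
    (((univ : Finset (Fin M × Fin M)).filter (fun p => ¬ Disjoint (T p.1) (T p.2))).card : ℝ) ≤ (M : ℝ) ^ 2 / Real.log H ^ ε →
    (((QQ d H).filter (fun a => ∃ r ≤ R, 1 / Real.log H ^ η <
      |(∑ i, (SG (GJ lamI J) (T i) a / Real.sqrt h) ^ r) / M - gm r|)).card : ℝ) ≤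
      (QQ d H).card / Real.log H ^ η := by
  have hall : ∀ i : Fin (R + 1), _ := fun i => emp_J lamI winB_lamI lamI_cases' (by unfold lamI; rw [if_pos rfl])
    d A (i : ℕ) k hk (le_trans (Nat.mul_le_mul_right k (by omega : (i : ℕ) ≤ R)) hR) ε hε
  choose ηs hη0 H0s hH0 using hall
  have hne : (univ : Finset (Fin (R + 1))).Nonempty := univ_nonempty
  set η : ℝ := (univ.inf' hne ηs) / 2 with hη
  have hηi : ∀ i, 2 * η ≤ ηs i := by
    intro i
    have : univ.inf' hne ηs ≤ ηs i := inf'_le _ (mem_univ i)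
    linarith
  have hηpos : 0 < η := by
    have : 0 < univ.inf' hne ηs := (lt_inf'_iff hne).2 (fun i _ => hη0 i)
    linarith
  obtain ⟨H1, h1⟩ := eventually_atTop.1 (ev_rpow η hηpos (R + 1))
  obtain ⟨H3, h3⟩ := eventually_atTop.1 (ev_log 2)
  refine ⟨η, hηpos, max (univ.sup H0s) (max H1 H3), fun H hH J hJc hJ M h hM hh T hTc hT hN => ?_⟩
  have a0 : ∀ i, H0s i ≤ H := fun i => (le_sup (f := H0s) (mem_univ i)).trans ((le_max_left _ _).trans hH)
  have a1 := h1 H (((le_max_left _ _).trans (le_max_right _ _)).trans hH)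
  have a3 := h3 H (((le_max_right _ _).trans (le_max_right _ _)).trans hH)
  have hi : ∀ i : Fin (R + 1), _ := fun i => hH0 i H (a0 i) J hJc hJ M h hM hh T hTc hT hN
  set L := Real.log (H : ℝ) with hL
  have hL0 : 0 < L := by linarith
  have hL1 : 1 ≤ L := by linarith
  have hQc0 : (0 : ℝ) ≤ (QQ d H).card := Nat.cast_nonneg _
  set Bd : Fin (R + 1) → Finset (Fin (d + 1) → ℤ) := fun i => (QQ d H).filter (fun a => 1 / L ^ ηs i <
      |(∑ l, (SG (GJ lamI J) (T l) a / Real.sqrt h) ^ (i : ℕ)) / M - gm i|) with hBd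
  have hsub : (QQ d H).filter (fun a => ∃ r ≤ R, 1 / L ^ η <
      |(∑ i, (SG (GJ lamI J) (T i) a / Real.sqrt h) ^ r) / M - gm r|) ⊆ univ.biUnion Bd := by
    intro a ha
    rw [mem_filter] at ha
    obtain ⟨ha1, r, hr, ha2⟩ := ha
    rw [mem_biUnion]
    refine ⟨⟨r, by omega⟩, mem_univ _, mem_filter.2 ⟨ha1, lt_of_le_of_lt ?_ ha2⟩⟩
    apply one_div_le_one_div_of_le (by positivity)
    apply Real.rpow_le_rpow_of_exponent_le hL1
    have := hηi ⟨r, by omega⟩
    linarith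
  have h4 : (((QQ d H).filter (fun a => ∃ r ≤ R, 1 / L ^ η <
      |(∑ i, (SG (GJ lamI J) (T i) a / Real.sqrt h) ^ r) / M - gm r|)).card : ℝ) ≤ ((univ.biUnion Bd).card : ℝ) := by
    exact_mod_cast card_le_card hsub
  refine h4.trans ?_
  refine (card_bU univ Bd (fun _ => (QQ d H).card / L ^ (2 * η)) (fun i _ => (hi i).trans ?_)).trans ?_
  · apply div_le_div_of_nonneg_left hQc0 (by positivity)
    exact Real.rpow_le_rpow_of_exponent_le hL1 (hηi i)
  rw [sum_const, card_univ, Fintype.card_fin, nsmul_eq_mul]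
  have e1 : L ^ (2 * η) = L ^ η * L ^ η := by
    rw [← Real.rpow_add hL0]; congr 1; ring
  push_cast
  calc ((R : ℝ) + 1) * ((QQ d H).card / L ^ (2 * η)) ≤ L ^ η * ((QQ d H).card / L ^ (2 * η)) :=
        mul_le_mul_of_nonneg_right a1 (by positivity)
    _ = (QQ d H).card / L ^ η := by
        rw [e1]
        have : L ^ η ≠ 0 := by positivity
        field_simp

/-- consecutive intervals -/
noncomputable def blk (x : ℤ) (h : ℕ) (i : ℕ) : Finset ℤ := Ioc (x + i * h) (x + (i + 1) * h)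

lemma blk_card (x : ℤ) (h i : ℕ) : (blk x h i).card = h := by
  unfold blk
  rw [Int.card_Ioc]
  have : x + ((i : ℤ) + 1) * h - (x + i * h) = h := by ring
  rw [this, Int.toNat_natCast]

lemma blk_disj (x : ℤ) (h i i' : ℕ) (hii : i ≠ i') : Disjoint (blk x h i) (blk x h i') := by
  have key : ∀ a b : ℕ, a < b → Disjoint (blk x h a) (blk x h b) := by
    intro a b hab
    rw [disjoint_left]
    intro t ht ht'
    unfold blk at ht ht'
    rw [mem_Ioc] at ht ht'
    have h1 : ((a : ℤ) + 1) * h ≤ b * h := by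
      apply mul_le_mul_of_nonneg_right _ (by positivity)
      exact_mod_cast hab
    linarith [ht.2, ht'.1]
  rcases lt_or_gt_of_ne hii with h1 | h1
  · exact key i i' h1
  · exact (key i' i h1).symm

open Classical in
theorem gauss_blk (d A R k : ℕ) (hk : 1 ≤ k) (hR : R * k ≤ d) (ε : ℝ) (hε : 0 < ε) : ∃ η : ℝ, 0 < η ∧
    ∃ H0 : ℕ, ∀ H : ℕ, H0 ≤ H → ∀ J : Finset ℤ, J.card = k → (∀ j ∈ J, |(j : ℝ)| ≤ Real.log H ^ A) →
    ∀ (x : ℤ) (M h : ℕ), Real.log H ^ ε ≤ M → Real.log H ^ ε ≤ h → |(x : ℝ)| + M * h ≤ Real.log H ^ A →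
    (((QQ d H).filter (fun a => ∃ r ≤ R, 1 / Real.log H ^ η <
      |(∑ i : Fin M, (SG (GJ lamI J) (blk x h i) a / Real.sqrt h) ^ r) / M - gm r|)).card : ℝ) ≤
      (QQ d H).card / Real.log H ^ η := by
  obtain ⟨η, hη, H0, h0⟩ := gauss d A R k hk hR ε hε
  obtain ⟨H3, h3⟩ := eventually_atTop.1 (ev_log 2)
  refine ⟨η, hη, max H0 H3, fun H hH J hJc hJ x M h hM hh hx => ?_⟩
  have a3 := h3 H ((le_max_right _ _).trans hH)
  set L := Real.log (H : ℝ) with hL
  have hLe : 1 ≤ L ^ ε := Real.one_le_rpow (by linarith) hε.le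
  have hLe0 : 0 < L ^ ε := by linarith
  have hM1 : 1 ≤ M := by
    have : (1 : ℝ) ≤ M := hLe.trans hM
    exact_mod_cast this
  refine h0 H ((le_max_left _ _).trans hH) J hJc hJ M h hM1 hh (fun i => blk x h i) (fun i => blk_card x h i) ?_ ?_
  · intro i t ht
    unfold blk at ht
    rw [mem_Ioc] at ht
    have hi : ((i : ℕ) : ℝ) + 1 ≤ M := by
      have := i.2
      exact_mod_cast this
    have hh0 : (0 : ℝ) ≤ h := Nat.cast_nonneg _
    have hi0 : (0 : ℝ) ≤ ((i : ℕ) : ℝ) := Nat.cast_nonneg _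
    have t1 : (x : ℝ) + ((i : ℕ) : ℝ) * h ≤ t := by exact_mod_cast ht.1.le
    have t2 : (t : ℝ) ≤ (x : ℝ) + (((i : ℕ) : ℝ) + 1) * h := by exact_mod_cast ht.2
    have t3 : (((i : ℕ) : ℝ) + 1) * h ≤ M * h := mul_le_mul_of_nonneg_right hi hh0
    have t4 : 0 ≤ ((i : ℕ) : ℝ) * h := by positivity
    refine le_trans ?_ hx
    have t5 := neg_abs_le (x : ℝ)
    have t6 := le_abs_self (x : ℝ)
    rw [abs_le]
    constructor
    · have : (0 : ℝ) ≤ (M : ℝ) * h := by positivity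
      linarith
    · linarith
  · have h4 : (univ : Finset (Fin M × Fin M)).filter (fun p => ¬ Disjoint (blk x h p.1) (blk x h p.2)) ⊆
        (univ : Finset (Fin M)).image (fun i => (i, i)) := by
      intro p hp
      rw [mem_filter] at hp
      rw [mem_image]
      by_cases hpp : p.1 = p.2
      · exact ⟨p.1, mem_univ _, Prod.ext rfl hpp⟩
      · exfalso
        apply hp.2
        apply blk_disj
        intro h5
        exact hpp (Fin.ext h5)
    have h5 : (((univ : Finset (Fin M × Fin M)).filter (fun p => ¬ Disjoint (blk x h p.1) (blk x h p.2))).card : ℝ) ≤ M := by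
      have h6 := (card_le_card h4).trans card_image_le
      rw [card_univ, Fintype.card_fin] at h6
      exact_mod_cast h6
    refine h5.trans ?_
    rw [le_div_iff₀ hLe0, sq]
    exact mul_le_mul_of_nonneg_left hM (Nat.cast_nonneg _)

end Pool.Agent.U708.RPC
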