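import Pool.Agent.TP975.LR.Ln1

/-!
# Sign patterns of the Liouville function along almost all polynomials

From the square root cancellation for the products over the translates (`TP975.LR.all_segJ`).
-/

set_option autoImplicit false

namespace Pool.Agent.U708.RPC

open Finset Filter
open Pool.Agent.TP975.RP
open Pool.Agent.TP975.LR

/-- the number of the `u ≤ N` such that `λ(f(n + j)) = -1` for `j ∈ S` and `λ(f(n + j)) = 1` for
`j ∈ J`, `j ∉ S`, where `n = r + q u` -/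
noncomputable def occL {d : ℕ} (J S : Finset ℤ) (a : Fin (d + 1) → ℤ) (q r N : ℕ) : ℕ :=
  ((Icc 1 N).filter (fun u : ℕ => ∀ j ∈ J, lamI (ev a (((r + q * u : ℕ) : ℤ) + j)) = if j ∈ S then -1 else 1)).card

lemma lamI_cases (v : ℤ) (hv : v ≠ 0) : lamI v = 1 ∨ lamI v = -1 := by
  unfold lamI
  rw [if_neg hv]
  exact neg_one_pow_eq_or ℝ _

lemma ev_roots {d : ℕ} (a : Fin (d + 1) → ℤ) (ha : a ≠ 0) (T : Finset ℤ) (hT : ∀ t ∈ T, ev a t = 0) : T.card ≤ d := by
  classical
  set P : Polynomial ℤ := ∑ c : Fin (d + 1), Polynomial.C (a c) * Polynomial.X ^ (c : ℕ) with hP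
  have heval : ∀ t : ℤ, P.eval t = ev a t := by
    intro t
    rw [hP, Polynomial.eval_finsetSum]
    unfold ev
    refine sum_congr rfl fun c _ => ?_
    simp
  have hcoef : ∀ c : Fin (d + 1), P.coeff c = a c := by
    intro c
    rw [hP, Polynomial.finsetSum_coeff]
    simp only [Polynomial.coeff_C_mul, Polynomial.coeff_X_pow]
    rw [sum_eq_single c]
    · simp
    · intro b _ hbc
      have : (c : ℕ) ≠ b := fun h => hbc (Fin.ext h.symm)
      simp [this]
    · intro h; exact absurd (mem_univ c) h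
  have hP0 : P ≠ 0 := by
    intro h0
    apply ha
    funext c
    rw [← hcoef c, h0]
    simp
  have hdeg : P.natDegree ≤ d := by
    rw [hP]
    apply Polynomial.natDegree_sum_le_of_forall_le
    intro c _
    refine (Polynomial.natDegree_C_mul_le _ _).trans ?_
    rw [Polynomial.natDegree_X_pow]
    have := c.2
    omega
  have h1 : T ⊆ P.roots.toFinset := by
    intro t ht
    rw [Multiset.mem_toFinset, Polynomial.mem_roots hP0, Polynomial.IsRoot.def, heval]
    exact hT t ht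
  exact (card_le_card h1).trans ((Multiset.toFinset_card_le _).trans ((Polynomial.card_roots' P).trans hdeg))

/-- the sum over the products -/
noncomputable def SJ {d : ℕ} (I : Finset ℤ) (a : Fin (d + 1) → ℤ) (q r N : ℕ) : ℝ :=
  ∑ u ∈ Icc 1 N, ∏ j ∈ I, lamI (ev a (((r + q * u : ℕ) : ℤ) + j))

lemma occL_eq {d : ℕ} (J S : Finset ℤ) (a : Fin (d + 1) → ℤ) (ha : a ≠ 0) (q r N : ℕ) (hq : 1 ≤ q) (ρ : ℝ) (hρ : 0 ≤ ρ)
    (h : ∀ I ⊆ J, I.Nonempty → |SJ I a q r N| ≤ ρ) :
    |(occL J S a q r N : ℝ) - N / 2 ^ J.card| ≤ ρ + J.card * d := by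
  classical
  set s : ℤ → ℝ := fun j => if j ∈ S then -1 else 1 with hs
  set l : ℕ → ℤ → ℝ := fun u j => lamI (ev a (((r + q * u : ℕ) : ℤ) + j)) with hl
  -- the exceptional arguments
  set Z := (Icc 1 N).filter (fun u : ℕ => ∃ j ∈ J, ev a (((r + q * u : ℕ) : ℤ) + j) = 0) with hZ
  have hZc : (Z.card : ℝ) ≤ J.card * d := by
    have h1 : Z ⊆ J.biUnion (fun j => (Icc 1 N).filter (fun u : ℕ => ev a (((r + q * u : ℕ) : ℤ) + j) = 0)) := by
      intro u hu
      rw [hZ, mem_filter] at hu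
      obtain ⟨h2, j, hj, h3⟩ := hu
      rw [mem_biUnion]
      exact ⟨j, hj, mem_filter.2 ⟨h2, h3⟩⟩
    have h2 : ∀ j ∈ J, ((Icc 1 N).filter (fun u : ℕ => ev a (((r + q * u : ℕ) : ℤ) + j) = 0)).card ≤ d := by
      intro j _
      rw [← card_image_of_injective ((Icc 1 N).filter (fun u : ℕ => ev a (((r + q * u : ℕ) : ℤ) + j) = 0))
        (f := fun u : ℕ => ((r + q * u : ℕ) : ℤ) + j) (by
          intro u u' huu
          have h3 : ((r + q * u : ℕ) : ℤ) + j = ((r + q * u' : ℕ) : ℤ) + j := huu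
          have h4 : r + q * u = r + q * u' := by exact_mod_cast add_right_cancel h3
          exact Nat.eq_of_mul_eq_mul_left (by omega : 0 < q) (by omega))]
      apply ev_roots a ha
      intro t ht
      rw [mem_image] at ht
      obtain ⟨u, hu, rfl⟩ := ht
      exact (mem_filter.1 hu).2
    have h3 := (card_le_card h1).trans (card_biUnion_le.trans (sum_le_sum h2))
    rw [sum_const, smul_eq_mul] at h3
    exact_mod_cast h3
  -- the pointwise formula
  have hpt : ∀ u ∈ Icc 1 N, |(if ∀ j ∈ J, l u j = s j then (1 : ℝ) else 0) - ∏ j ∈ J, ((1 + s j * l u j) / 2)| ≤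
      if u ∈ Z then 1 else 0 := by
    intro u hu
    by_cases hz : u ∈ Z
    · rw [if_pos hz]
      have hf : ∀ j ∈ J, 0 ≤ (1 + s j * l u j) / 2 ∧ (1 + s j * l u j) / 2 ≤ 1 := by
        intro j _
        have h1 : |s j * l u j| ≤ 1 := by
          rw [abs_mul]
          have h2 : |s j| = 1 := by
            simp only [hs]
            split_ifs <;> simp
          rw [h2, one_mul]
          exact lamI_abs _
        rw [abs_le] at h1
        constructor <;> linarith
      have h2 : 0 ≤ ∏ j ∈ J, ((1 + s j * l u j) / 2) := prod_nonneg fun j hj => (hf j hj).1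
      have h3 : ∏ j ∈ J, ((1 + s j * l u j) / 2) ≤ 1 := prod_le_one (fun j hj => (hf j hj).1) (fun j hj => (hf j hj).2)
      split_ifs
      · rw [abs_le]; constructor <;> linarith
      · rw [abs_le]; constructor <;> linarith
    · rw [if_neg hz]
      have hnz : ∀ j ∈ J, ev a (((r + q * u : ℕ) : ℤ) + j) ≠ 0 := by
        intro j hj h0
        exact hz (mem_filter.2 ⟨hu, j, hj, h0⟩)
      have hf : ∀ j ∈ J, (1 + s j * l u j) / 2 = if l u j = s j then 1 else 0 := by
        intro j hj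
        have h1 := lamI_cases _ (hnz j hj)
        change l u j = 1 ∨ l u j = -1 at h1
        have h2 : s j = 1 ∨ s j = -1 := by
          simp only [hs]
          split_ifs <;> simp
        rcases h1 with h1 | h1 <;> rcases h2 with h2 | h2 <;> rw [h1, h2] <;> norm_num
      rw [prod_congr rfl hf, prod_boole, sub_self, abs_zero]
  have hocc : (occL J S a q r N : ℝ) = ∑ u ∈ Icc 1 N, (if ∀ j ∈ J, l u j = s j then (1 : ℝ) else 0) := by
    unfold occL
    rw [card_filter, Nat.cast_sum]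
    refine sum_congr rfl fun u _ => ?_
    simp only [hl, hs]
    split_ifs <;> simp
  have hprod : ∑ u ∈ Icc 1 N, ∏ j ∈ J, ((1 + s j * l u j) / 2) =
      (1 / 2 ^ J.card) * ∑ I ∈ J.powerset, (∏ j ∈ I, s j) * SJ I a q r N := by
    have e1 : ∀ u ∈ Icc 1 N, ∏ j ∈ J, ((1 + s j * l u j) / 2) =
        (1 / 2 ^ J.card) * ∑ I ∈ J.powerset, (∏ j ∈ I, s j) * ∏ j ∈ I, l u j := by
      intro u _
      rw [prod_div_distrib, prod_const, prod_one_add, div_eq_mul_one_div, mul_comm]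
      congr 1
      exact sum_congr rfl fun I _ => prod_mul_distrib
    rw [sum_congr rfl e1, ← mul_sum]
    congr 1
    rw [sum_comm]
    exact sum_congr rfl fun I _ => by unfold SJ; rw [mul_sum]
  have hmain : |(1 / 2 ^ J.card) * ∑ I ∈ J.powerset, (∏ j ∈ I, s j) * SJ I a q r N - N / 2 ^ J.card| ≤ ρ := by
    have hmem : (∅ : Finset ℤ) ∈ J.powerset := empty_mem_powerset J
    rw [← add_sum_erase _ _ hmem]
    have e3 : (∏ j ∈ (∅ : Finset ℤ), s j) * SJ ∅ a q r N = N := by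
      unfold SJ
      simp
    rw [e3]
    have e4 : ∀ X : ℝ, (1 / 2 ^ J.card) * ((N : ℝ) + X) - N / 2 ^ J.card = (1 / 2 ^ J.card) * X := by
      intro X
      ring
    rw [e4, abs_mul, abs_of_nonneg (by positivity : (0 : ℝ) ≤ 1 / 2 ^ J.card)]
    have h8 : |∑ I ∈ J.powerset.erase ∅, (∏ j ∈ I, s j) * SJ I a q r N| ≤ 2 ^ J.card * ρ := by
      refine (abs_sum_le_sum_abs _ _).trans ?_
      have h9 : ∀ I ∈ J.powerset.erase ∅, |(∏ j ∈ I, s j) * SJ I a q r N| ≤ ρ := by
        intro I hI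
        have hne : I.Nonempty := nonempty_iff_ne_empty.2 (ne_of_mem_erase hI)
        rw [abs_mul, abs_prod]
        have e5 : ∏ j ∈ I, |s j| = 1 := by
          apply prod_eq_one
          intro j _
          simp only [hs]
          split_ifs <;> simp
        rw [e5, one_mul]
        exact h I (mem_powerset.1 (mem_of_mem_erase hI)) hne
      refine (sum_le_sum h9).trans ?_
      rw [sum_const, nsmul_eq_mul]
      apply mul_le_mul_of_nonneg_right _ hρ
      have h10 : (J.powerset.erase ∅).card ≤ 2 ^ J.card := by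
        refine (card_erase_le).trans ?_
        rw [card_powerset]
      exact_mod_cast h10
    calc 1 / 2 ^ J.card * |∑ I ∈ J.powerset.erase ∅, (∏ j ∈ I, s j) * SJ I a q r N| ≤
        1 / 2 ^ J.card * (2 ^ J.card * ρ) := mul_le_mul_of_nonneg_left h8 (by positivity)
      _ = ρ := by field_simp
  have hdiff : |(occL J S a q r N : ℝ) - ∑ u ∈ Icc 1 N, ∏ j ∈ J, ((1 + s j * l u j) / 2)| ≤ J.card * d := by
    rw [hocc, ← sum_sub_distrib]
    refine (abs_sum_le_sum_abs _ _).trans ((sum_le_sum hpt).trans ?_)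
    rw [sum_boole]
    refine le_trans ?_ hZc
    rw [Nat.cast_le]
    exact card_le_card (fun u hu => (mem_filter.1 hu).2)
  rw [hprod] at hdiff
  calc |(occL J S a q r N : ℝ) - N / 2 ^ J.card| ≤
      |(occL J S a q r N : ℝ) - (1 / 2 ^ J.card) * ∑ I ∈ J.powerset, (∏ j ∈ I, s j) * SJ I a q r N| +
      |(1 / 2 ^ J.card) * ∑ I ∈ J.powerset, (∏ j ∈ I, s j) * SJ I a q r N - N / 2 ^ J.card| := abs_sub_le _ _ _
    _ ≤ _ := by linarith

open Classical in
/-- all sets of shifts, all patterns of signs, all segments of all progressions -/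
theorem patterns (d A k m : ℕ) (hk : 1 ≤ k) (hm : 1 ≤ m) (hkm : m * k ≤ d) (ε : ℝ) (hε : 0 < ε) :
    ∃ η : ℝ, 0 < η ∧ ∃ H0 : ℕ, ∀ H : ℕ, H0 ≤ H →
    ∃ Bad ⊆ QQ d H, (Bad.card : ℝ) ≤ (QQ d H).card / Real.log H ^ η ∧
    ∀ a ∈ QQ d H, a ∉ Bad → a ≠ 0 → ∀ J : Finset ℤ, 1 ≤ J.card → J.card ≤ k →
    (∀ j ∈ J, 0 ≤ j ∧ (j : ℝ) ≤ Real.log H ^ η) →
    ∀ q r N : ℕ, 1 ≤ q → 1 ≤ N → ((r + q * N : ℕ) : ℝ) ≤ Real.log H ^ A →
    SJ J a q r N ^ (2 * m) ≤
      (q : ℝ) * ((r + q * N : ℕ) : ℝ) * (N : ℝ) ^ (m - 1) * Real.log H ^ ε ∧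
    ∀ S : Finset ℤ, |(occL J S a q r N : ℝ) - N / 2 ^ J.card| ^ (2 * m) ≤
      (q : ℝ) * ((r + q * N : ℕ) : ℝ) * (N : ℝ) ^ (m - 1) * Real.log H ^ ε := by
  have hall : ∀ i : Fin k, ∃ η : ℝ, 0 < η ∧ ∃ H0 : ℕ, ∀ H : ℕ, H0 ≤ H →
      ∃ Bad ⊆ QQ d H, (Bad.card : ℝ) ≤ (QQ d H).card / Real.log H ^ η ∧
      ∀ a ∈ QQ d H, a ∉ Bad → ∀ J : Finset ℤ, J.card = (i : ℕ) + 1 → (∀ j ∈ J, 0 ≤ j ∧ (j : ℝ) ≤ Real.log H ^ η) →
      ∀ q r N : ℕ, 1 ≤ q → 1 ≤ N → ((r + q * N : ℕ) : ℝ) ≤ Real.log H ^ A →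
      (∑ u ∈ Icc 1 N, GJ lamI J a ((r + q * u : ℕ) : ℤ)) ^ (2 * m) ≤
        (q : ℝ) * ((r + q * N : ℕ) : ℝ) * (N : ℝ) ^ (m - 1) * Real.log H ^ (ε / 2) := by
    intro i
    refine all_segJ lamI winB_lamI lamI_cases (by unfold lamI; rw [if_pos rfl]) d A ((i : ℕ) + 1) m (by omega) hm ?_
      (ε / 2) (by positivity)
    refine le_trans (Nat.mul_le_mul_left m ?_) hkm
    have := i.2
    omega
  choose ηs hη0 H0s hH0 using hall
  obtain ⟨i0⟩ : Nonempty (Fin k) := ⟨⟨0, hk⟩⟩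
  have hne : (univ : Finset (Fin k)).Nonempty := univ_nonempty_iff.2 ⟨i0⟩
  set η : ℝ := (univ.inf' hne ηs) / 2 with hη
  have hηi : ∀ i, 2 * η ≤ ηs i := by
    intro i
    have : univ.inf' hne ηs ≤ ηs i := inf'_le _ (mem_univ i)
    linarith
  have hηpos : 0 < η := by
    have : 0 < univ.inf' hne ηs := by
      exact (lt_inf'_iff hne).2 (fun i _ => hη0 i)
    linarith
  obtain ⟨H1, h1⟩ := eventually_atTop.1 (ev_rpow η hηpos k)
  obtain ⟨H2, h2⟩ := eventually_atTop.1 (ev_rpow (ε / 2) (by positivity) ((1 + (k : ℝ) * d) ^ (2 * m)))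
  obtain ⟨H3, h3⟩ := eventually_atTop.1 (ev_log 2)
  refine ⟨η, hηpos, max (univ.sup H0s) (max H1 (max H2 H3)), fun H hH => ?_⟩
  have a0 : ∀ i, H0s i ≤ H := fun i => (le_sup (f := H0s) (mem_univ i)).trans ((le_max_left _ _).trans hH)
  have a1 := h1 H (((le_max_left _ _).trans (le_max_right _ _)).trans hH)
  have a2 := h2 H ((((le_max_left _ _).trans (le_max_right _ _)).trans (le_max_right _ _)).trans hH)
  have a3 := h3 H ((((le_max_right _ _).trans (le_max_right _ _)).trans (le_max_right _ _)).trans hH)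
  have hex : ∀ i : Fin k, _ := fun i => hH0 i H (a0 i)
  choose Bd hBd1 hBd2 hBd3 using hex
  set L := Real.log (H : ℝ) with hL
  have hL0 : 0 < L := by linarith
  have hL1 : 1 ≤ L := by linarith
  refine ⟨(univ : Finset (Fin k)).biUnion Bd, ?_, ?_, ?_⟩
  · intro a ha
    obtain ⟨i, _, hai⟩ := mem_biUnion.1 ha
    exact hBd1 i hai
  · have hQc0 : (0 : ℝ) ≤ (QQ d H).card := Nat.cast_nonneg _
    refine (card_bU univ Bd (fun _ => (QQ d H).card / L ^ (2 * η)) (fun i _ => (hBd2 i).trans ?_)).trans ?_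
    · apply div_le_div_of_nonneg_left hQc0 (by positivity)
      exact Real.rpow_le_rpow_of_exponent_le hL1 (hηi i)
    rw [sum_const, card_univ, Fintype.card_fin, nsmul_eq_mul]
    have e1 : L ^ (2 * η) = L ^ η * L ^ η := by
      rw [← Real.rpow_add hL0]; congr 1; ring
    calc (k : ℝ) * ((QQ d H).card / L ^ (2 * η)) ≤ L ^ η * ((QQ d H).card / L ^ (2 * η)) :=
          mul_le_mul_of_nonneg_right a1 (by positivity)
      _ = (QQ d H).card / L ^ η := by
          rw [e1]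
          have : L ^ η ≠ 0 := by positivity
          field_simp
  · intro a ha hbad ha0 J hJ1 hJk hJ q r N hq hN hX
    set B : ℝ := (q : ℝ) * ((r + q * N : ℕ) : ℝ) * (N : ℝ) ^ (m - 1) * L ^ (ε / 2) with hB
    have hq1 : (1 : ℝ) ≤ q := by exact_mod_cast hq
    have hN1 : (1 : ℝ) ≤ N := by exact_mod_cast hN
    have hrq : (1 : ℝ) ≤ ((r + q * N : ℕ) : ℝ) := by
      have : 1 ≤ r + q * N := by nlinarith
      exact_mod_cast this
    have hB1 : 1 ≤ B := by
      have h4 : 1 ≤ L ^ (ε / 2) := Real.one_le_rpow hL1 (by positivity)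
      have h5 : (1 : ℝ) ≤ (N : ℝ) ^ (m - 1) := one_le_pow₀ hN1
      have h6 : 1 ≤ (q : ℝ) * ((r + q * N : ℕ) : ℝ) := one_le_mul_of_one_le_of_one_le hq1 hrq
      exact one_le_mul_of_one_le_of_one_le (one_le_mul_of_one_le_of_one_le h6 h5) h4
    have hB0 : 0 ≤ B := by linarith
    set ρ : ℝ := B ^ (((2 * m : ℕ) : ℝ)⁻¹) with hρ
    have hρ0 : 0 ≤ ρ := by positivity
    have hρ1 : 1 ≤ ρ := Real.one_le_rpow hB1 (by positivity)
    have hρd : ρ ^ (2 * m) = B := Real.rpow_inv_natCast_pow hB0 (by omega)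
    have hS : ∀ I ⊆ J, I.Nonempty → |SJ I a q r N| ≤ ρ := by
      intro I hIJ hIne
      have hI1 : 1 ≤ I.card := hIne.card_pos
      have hIk : I.card ≤ k := (card_le_card hIJ).trans hJk
      have h6 := hBd3 ⟨I.card - 1, by omega⟩ a ha (fun h' => hbad (mem_biUnion.2 ⟨_, mem_univ _, h'⟩)) I
        (by simp only; omega) (by
          intro j hj
          obtain ⟨b1, b2⟩ := hJ j (hIJ hj)
          refine ⟨b1, b2.trans ?_⟩
          apply Real.rpow_le_rpow_of_exponent_le hL1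
          have := hηi ⟨I.card - 1, by omega⟩
          linarith) q r N hq hN hX
      have e2 : ∑ u ∈ Icc 1 N, GJ lamI I a ((r + q * u : ℕ) : ℤ) = SJ I a q r N := rfl
      rw [e2] at h6
      have h7 : |SJ I a q r N| ^ (2 * m) ≤ ρ ^ (2 * m) := by
        rw [(even_two_mul m).pow_abs, hρd]
        exact h6
      exact (pow_le_pow_iff_left₀ (abs_nonneg _) hρ0 (by omega)).1 h7
    have e5 : L ^ ε = L ^ (ε / 2) * L ^ (ε / 2) := by
      rw [← Real.rpow_add hL0]; congr 1; ring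
    have hBL : B ≤ (q : ℝ) * ((r + q * N : ℕ) : ℝ) * (N : ℝ) ^ (m - 1) * L ^ ε := by
      rw [hB]
      apply mul_le_mul_of_nonneg_left _ (by positivity)
      exact Real.rpow_le_rpow_of_exponent_le hL1 (by linarith)
    refine ⟨?_, fun S => ?_⟩
    · have h6 := hS J (Subset.refl _) (card_pos.1 hJ1)
      have h7 : SJ J a q r N ^ (2 * m) ≤ B := by
        rw [← (even_two_mul m).pow_abs, ← hρd]
        exact pow_le_pow_left₀ (abs_nonneg _) h6 _
      exact h7.trans hBL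
    · have h6 := occL_eq J S a ha0 q r N hq ρ hρ0 hS
      have h7 : ρ + J.card * d ≤ ρ * (1 + (k : ℝ) * d) := by
        have h8 : (J.card : ℝ) * d ≤ (k : ℝ) * d := by
          apply mul_le_mul_of_nonneg_right _ (Nat.cast_nonneg _)
          exact_mod_cast hJk
        have h9 : (0 : ℝ) ≤ (k : ℝ) * d := by positivity
        nlinarith
      calc |(occL J S a q r N : ℝ) - N / 2 ^ J.card| ^ (2 * m) ≤ (ρ * (1 + (k : ℝ) * d)) ^ (2 * m) :=
            pow_le_pow_left₀ (abs_nonneg _) (h6.trans h7) _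
        _ = B * (1 + (k : ℝ) * d) ^ (2 * m) := by rw [mul_pow, hρd]
        _ ≤ B * L ^ (ε / 2) := mul_le_mul_of_nonneg_left a2 hB0
        _ = _ := by rw [hB, e5]; ring

end Pool.Agent.U708.RPC
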